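import Pool.Agent.Y659.MPS.Stm

/-! Many powers in the centraliser: MPS-U1A. -/

namespace Pool.Agent.Y43.MPS
open Matrix
open Pool.Agent.Results.MP_8bfff4_mp.ExactValue Pool.Agent.Y659.MPS

theorem a1 {D : ℕ} (W : Submodule ℂ (Matrix (Fin D) (Fin D) ℂ)) (X g : Matrix (Fin D) (Fin D) ℂ)
    (m : ℕ) (hX : X ∈ W) (hc : X * g = g * X) (hg : X ^ m * g ∈ W ^ m) (n i : ℕ) (hi : i ≤ D - 2)
    (hn : n = (D - 2) * m) : X ^ n * g ^ i ∈ W ^ n := by
    have hcomm : Commute X g := hc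
    have e1 : X ^ n * g ^ (i : ℕ) = X ^ ((D - 2 - i) * m) * (X ^ m * g) ^ (i : ℕ) := by
        rw [(hcomm.pow_left m).mul_pow, ← pow_mul, ← mul_assoc, ← pow_add]
        congr 2
        rw [hn, mul_comm m, ← add_mul, Nat.sub_add_cancel hi]
    have e2 : n = (D - 2 - i) * m + m * i := by
        rw [hn, mul_comm m, ← add_mul, Nat.sub_add_cancel hi]
    rw [e1, e2, pow_add, pow_mul W m]
    exact Submodule.mul_mem_mul (Submodule.pow_mem_pow W hX _) (Submodule.pow_mem_pow _ hg _)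

theorem a2 {D : ℕ} (X g : Matrix (Fin D) (Fin D) ℂ)
    (hc : X * g = g * X)  (n i : ℕ)  : X ^ n * g ^ i ∈ LinearMap.ker (adL X) := by
    have hcomm : Commute X g := hc
    rw [LinearMap.mem_ker, adL_apply, sub_eq_zero]
    have h1 : Commute X (X ^ n * g ^ (i : ℕ)) :=
        ((Commute.refl X).pow_right n).mul_right (hcomm.pow_right i)
    exact h1.eq.symm

theorem a3 {D : ℕ} (g : Matrix (Fin D) (Fin D) ℂ) (hdeg : D ≤ (minpoly ℂ g).natDegree + 1) :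
    LinearIndependent ℂ (fun i : Fin (D - 1) => g ^ (i : ℕ)) := by
    have h1 := linearIndependent_pow (K := ℂ) g
    exact h1.comp (Fin.castLE (show D - 1 ≤ (minpoly ℂ g).natDegree by omega))
      (Fin.castLE_injective _)

theorem a4 {D : ℕ} (X : Matrix (Fin D) (Fin D) ℂ) (hXu : IsUnit X) (n : ℕ) : LinearMap.ker (LinearMap.mulLeft ℂ (X ^ n)) = ⊥ := by
    rw [LinearMap.ker_eq_bot]
    intro A B hAB
    exact (hXu.pow n).mul_left_cancel hAB

theorem a5 {D : ℕ} (X g : Matrix (Fin D) (Fin D) ℂ) (hXu : IsUnit X)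
    (hdeg : D ≤ (minpoly ℂ g).natDegree + 1) (n : ℕ) :
    LinearIndependent ℂ (fun i : Fin (D - 1) => X ^ n * g ^ (i : ℕ)) :=
  (a3 g hdeg).map' (LinearMap.mulLeft ℂ (X ^ n)) (a4 X hXu n)

theorem a6 {D : ℕ} (W : Submodule ℂ (Matrix (Fin D) (Fin D) ℂ)) (X g : Matrix (Fin D) (Fin D) ℂ)
    (m n : ℕ) (hD : 2 ≤ D) (hX : X ∈ W) (hXu : IsUnit X) (hc : X * g = g * X)
    (hg : X ^ m * g ∈ W ^ m) (hdeg : D ≤ (minpoly ℂ g).natDegree + 1) (hn : n = (D - 2) * m) :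
    D ≤ fr (W ^ n ⊓ LinearMap.ker (adL X)) + 1 := by
  have h3 := finrank_span_eq_card (a5 X g hXu hdeg n)
  rw [Fintype.card_fin] at h3
  have h4 : Submodule.span ℂ (Set.range fun i : Fin (D - 1) => X ^ n * g ^ (i : ℕ)) ≤
      W ^ n ⊓ LinearMap.ker (adL X) := by
    rw [Submodule.span_le]
    rintro _ ⟨i, rfl⟩
    have hi : (i : ℕ) ≤ D - 2 := by have := i.isLt; omega
    exact ⟨a1 W X g m hX hc hg n i hi hn, a2 X g hc n i⟩
  have h5 := fr_mono h4
  unfold fr at h5 ⊢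
  rw [h3] at h5
  omega

theorem U1A : St_U1A := by
  intro D W X g m hD hX hXu hc hg hdeg
  exact a6 W X g m _ hD hX hXu hc hg hdeg rfl

end Pool.Agent.Y43.MPS
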