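import Pool.Agent.Y659.MPS.Stm

/-! The filtration count: MPS-U1F. -/

namespace Pool.Agent.Y43.MPS

open Matrix Polynomial
open Pool.Agent.Results.MP_8bfff4_mp.ExactValue Pool.Agent.Y659.MPS

variable {D : ℕ}

theorem mul_ln_aeval_le (V : Submodule ℂ (Matrix (Fin D) (Fin D) ℂ))
    (g : Matrix (Fin D) (Fin D) ℂ) {v : ℕ} {p : ℂ[X]} (hp : p.natDegree < v) :
    V * ln (aeval g p) ≤ ⨆ i : Fin v, V * ln (g ^ (i : ℕ)) := by
  intro x hx
  obtain ⟨z, hz, rfl⟩ := mem_mul_ln.1 hx
  rw [aeval_eq_sum_range' hp, Finset.mul_sum]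
  refine Submodule.sum_mem _ fun i hi => ?_
  rw [mul_smul_comm]
  exact Submodule.smul_mem _ _ (Submodule.mem_iSup_of_mem
    (⟨i, Finset.mem_range.1 hi⟩ : Fin v) (mem_mul_ln.2 ⟨z, hz, rfl⟩))

theorem ln_zero : ln (0 : Matrix (Fin D) (Fin D) ℂ) = ⊥ := by
  unfold ln
  exact Submodule.span_zero_singleton ℂ

theorem U1F : St_U1F := by
  classical
  intro D v r V g κ h0 hr
  set Vg : Submodule ℂ (Matrix (Fin D) (Fin D) ℂ) := ⨆ i : Fin v, V * ln (g ^ (i : ℕ)) with hVg
  -- the products
  let P : ℕ → ℂ[X] := fun j =>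
    ∏ i ∈ Finset.univ.filter (fun i : Fin v => j ≤ (i : ℕ)), (X - C (κ i))
  let Q : ℕ → ℂ[X] := fun j =>
    ∏ i ∈ Finset.univ.filter (fun i : Fin v => (i : ℕ) < j), (X - C (κ i))
  have hstep : ∀ j, (hj : j < v) → fr (Vg * ln (aeval g (P j))) + r ≤
      fr (Vg * ln (aeval g (P (j + 1)))) := by
    intro j hj
    set J : Fin v := ⟨j, hj⟩ with hJ
    have e1 : P j = P (j + 1) * (X - C (κ J)) := by
      have hs : Finset.univ.filter (fun i : Fin v => j ≤ (i : ℕ)) =
          insert J (Finset.univ.filter (fun i : Fin v => j + 1 ≤ (i : ℕ))) := by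
        ext i
        rw [Finset.mem_insert, Finset.mem_filter, Finset.mem_filter, Fin.ext_iff]
        simp only [Finset.mem_univ, true_and, hJ]
        omega
      have hn : J ∉ Finset.univ.filter (fun i : Fin v => j + 1 ≤ (i : ℕ)) := by
        rw [Finset.mem_filter]
        simp only [Finset.mem_univ, true_and, hJ]
        omega
      change ∏ i ∈ Finset.univ.filter (fun i : Fin v => j ≤ (i : ℕ)), (X - C (κ i)) = _
      rw [hs, Finset.prod_insert hn, mul_comm]
    have e2 : ∏ i ∈ Finset.univ.erase J, (X - C (κ i)) = Q j * P (j + 1) := by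
      change _ = (∏ i ∈ Finset.univ.filter (fun i : Fin v => (i : ℕ) < j), (X - C (κ i))) *
        ∏ i ∈ Finset.univ.filter (fun i : Fin v => j + 1 ≤ (i : ℕ)), (X - C (κ i))
      rw [← Finset.prod_union]
      · apply Finset.prod_congr _ fun _ _ => rfl
        ext i
        rw [Finset.mem_erase, Finset.mem_union, Finset.mem_filter, Finset.mem_filter, Ne,
          Fin.ext_iff]
        simp only [Finset.mem_univ, true_and, and_true, hJ]
        omega
      · rw [Finset.disjoint_left]
        intro i hi1 hi2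
        rw [Finset.mem_filter] at hi1 hi2
        omega
    have e3 : ∏ i, (X - C (κ i)) = (∏ i ∈ Finset.univ.erase J, (X - C (κ i))) *
        (X - C (κ J)) := (Finset.prod_erase_mul _ _ (Finset.mem_univ J)).symm
    set η : Matrix (Fin D) (Fin D) ℂ :=
      aeval g (∏ i ∈ Finset.univ.erase J, (X - C (κ i))) with hη
    have hdeg : (Q j).natDegree < v := by
      change (∏ i ∈ Finset.univ.filter (fun i : Fin v => (i : ℕ) < j),
        (X - C (κ i))).natDegree < v
      rw [natDegree_finsetProd_X_sub_C_eq_card]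
      have := Finset.card_lt_univ_of_notMem
        (s := Finset.univ.filter (fun i : Fin v => (i : ℕ) < j)) (x := J) (by
          rw [Finset.mem_filter]
          simp only [Finset.mem_univ, true_and, hJ]
          omega)
      simpa using this
    have hle : V * ln η ≤ Vg * ln (aeval g (P (j + 1))) := by
      rw [hη, e2, map_mul, ← ln_mul_ln, ← mul_assoc]
      exact mul_le_mul' (mul_ln_aeval_le V g hdeg) le_rfl
    have hm := finrank_map_add (LinearMap.mulRight ℂ (aeval g (X - C (κ J)))) hle
    have hz : (V * ln η).map (LinearMap.mulRight ℂ (aeval g (X - C (κ J)))) = ⊥ := by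
      rw [← mul_ln_eq_map, mul_assoc, ln_mul_ln, hη, ← map_mul, ← e3, h0, ln_zero,
        Submodule.mul_bot]
    have hU : (Vg * ln (aeval g (P (j + 1)))).map
        (LinearMap.mulRight ℂ (aeval g (X - C (κ J)))) = Vg * ln (aeval g (P j)) := by
      rw [← mul_ln_eq_map, mul_assoc, ln_mul_ln, ← map_mul, ← e1]
    rw [hz, hU, finrank_bot] at hm
    have h9 : r ≤ fr (V * ln η) := hr J
    change fr (Vg * ln (aeval g (P j))) + fr (V * ln η) ≤ _ at hm
    omega
  have hall : ∀ j, j ≤ v → r * j ≤ fr (Vg * ln (aeval g (P j))) := by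
    intro j
    induction j with
    | zero => intro _; simp
    | succ j ih =>
      intro hj
      have h1 := ih (by omega)
      have h2 := hstep j (by omega)
      rw [Nat.mul_succ]
      omega
  have h1 := hall v le_rfl
  have e : P v = 1 := by
    change ∏ i ∈ Finset.univ.filter (fun i : Fin v => v ≤ (i : ℕ)), (X - C (κ i)) = 1
    rw [Finset.filter_false_of_mem, Finset.prod_empty]
    intro i _
    have := i.isLt
    omega
  rwa [e, map_one, ln_one, mul_one] at h1

end Pool.Agent.Y43.MPS
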