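import Pool.Agent.Y659.MPS.Stm

/-! Growth of `W ^ k * ln η`: MPS-U1G. -/

namespace Pool.Agent.Y43.MPS

open Matrix
open Pool.Agent.Results.MP_8bfff4_mp.ExactValue Pool.Agent.Y659.MPS

variable {D : ℕ}

theorem top_mul_ln_unit {g : Matrix (Fin D) (Fin D) ℂ} (hg : IsUnit g) :
    (⊤ : Submodule ℂ (Matrix (Fin D) (Fin D) ℂ)) * ln g = ⊤ := by
  apply eq_of_le_of_fr_le le_top
  rw [fr_mul_ln hg]

theorem ln_pow_le {W : Submodule ℂ (Matrix (Fin D) (Fin D) ℂ)} {X : Matrix (Fin D) (Fin D) ℂ}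
    (hX : X ∈ W) (k : ℕ) : ln (X ^ k) ≤ W ^ k :=
  ln_le.2 (Submodule.pow_mem_pow W hX k)

theorem U1G : St_U1G := by
  intro D W X η N hX hXu hN hc hη k
  have hstep : ∀ k, W ^ k * ln η * ln X ≤ W ^ (k + 1) * ln η := by
    intro k
    rw [mul_assoc, ln_mul_ln, ← hc, ← ln_mul_ln, ← mul_assoc, pow_succ]
    exact mul_le_mul' (mul_le_mul' le_rfl (ln_le.2 hX)) le_rfl
  induction k with
  | zero =>
    have h1 : fr (W ^ 0 * ln η) = 1 := by
      rw [pow_zero, one_mul]
      exact finrank_span_singleton hη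
    rw [h1]
    exact min_le_left _ _
  | succ k ih =>
    have h1 : fr (W ^ k * ln η) ≤ fr (W ^ (k + 1) * ln η) := by
      rw [← fr_mul_ln (U := W ^ k * ln η) hXu]
      exact fr_mono (hstep k)
    by_cases h2 : fr (W ^ (k + 1) * ln η) ≤ fr (W ^ k * ln η)
    · -- stable
      have h3 : W ^ k * ln η * ln X = W ^ (k + 1) * ln η := by
        apply eq_of_le_of_fr_le (hstep k)
        rw [fr_mul_ln hXu]
        exact h2
      have h4 : ∀ j, W ^ j * (W ^ k * ln η) = W ^ k * ln η * ln (X ^ j) := by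
        intro j
        induction j with
        | zero => rw [pow_zero, pow_zero, one_mul, ln_one, mul_one]
        | succ j ihj =>
          rw [pow_succ' W, mul_assoc, ihj, ← mul_assoc W, ← mul_assoc W, ← pow_succ', ← h3,
            mul_assoc (W ^ k * ln η), ln_mul_ln, ← pow_succ']
      have h5 := h4 N
      rw [hN] at h5
      have h6 : (⊤ : Submodule ℂ (Matrix (Fin D) (Fin D) ℂ)) * ln η ≤ ⊤ * (W ^ k * ln η) := by
        calc (⊤ : Submodule ℂ (Matrix (Fin D) (Fin D) ℂ)) * ln η = ⊤ * ln (X ^ k) * ln η := by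
              rw [top_mul_ln_unit (hXu.pow k)]
          _ = ⊤ * (ln (X ^ k) * ln η) := mul_assoc _ _ _
          _ ≤ ⊤ * (W ^ k * ln η) := mul_le_mul' le_rfl (mul_le_mul' (ln_pow_le hX k) le_rfl)
      have h7 := fr_mono h6
      rw [fr_top_mul_ln, h5, fr_mul_ln (hXu.pow N)] at h7
      exact (min_le_right _ _).trans (h7.trans h1)
    · have h8 : fr (W ^ k * ln η) + 1 ≤ fr (W ^ (k + 1) * ln η) := by omega
      rcases le_total (k + 1) (D * η.rank) with h9 | h9
      · rw [min_eq_left h9] at ih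
        exact (min_le_left _ _).trans (by omega)
      · rw [min_eq_right h9] at ih
        exact (min_le_right _ _).trans (by omega)

end Pool.Agent.Y43.MPS
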